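import Mathlib
import Pool.Agent.Run7.h545.Main

/-!
# Weighted spherical designs with `O(d ^ (t + ⌊t / 2⌋))` points
-/

set_option autoImplicit false

open MeasureTheory

/-- For every `t` there is a constant `C` such that in every dimension `d ≥ 1` there are at most
`C * d ^ (t + ⌊t / 2⌋)` unit vectors with positive weights whose weighted sum of every polynomial
of degree at most `2 t + 1` equals its integral over the unit sphere. -/
theorem Pool.Agent.Results.MP_a2be38_co.ThreeHalvesExponent.result :
    ∀ t : ℕ, ∃ C : ℝ, ∀ d : ℕ, 1 ≤ d →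
      ∃ N : ℕ, (N : ℝ) ≤ C * (d : ℝ) ^ (t + t / 2) ∧
        ∃ x : Fin N → Metric.sphere (0 : EuclideanSpace ℝ (Fin d)) 1,
        ∃ w : Fin N → ℝ, (∀ i, 0 < w i) ∧
          ∀ p : MvPolynomial (Fin d) ℝ, p.totalDegree ≤ 2 * t + 1 →
            ∑ i, w i * MvPolynomial.eval
                (fun j => WithLp.ofLp (x i : EuclideanSpace ℝ (Fin d)) j) p
              = ∫ y, MvPolynomial.eval
                (fun j => WithLp.ofLp (y : EuclideanSpace ℝ (Fin d)) j) p
                ∂(volume : Measure (EuclideanSpace ℝ (Fin d))).toSphere :=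
  Run7.h545.main
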